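import Pool.Agent.J6H49.OP.Late

/-!
# Finite extension arguments
-/

set_option autoImplicit false

namespace Pool.Agent.J6H49.AM

open Pool.Agent.H628R3.RO

/-- A finite extension argument. The condition `Lg n` is local: it depends on the strings of length
at most `2 * n`. -/
theorem exists_limit {Lg : ℕ → Oracle → Prop}
    (hLg : ∀ (n : ℕ) (A A' : Oracle), (∀ x : List Bool, x.length ≤ 2 * n → A x = A' x) →
      Lg n A → Lg n A')
    {Req : ℕ → Oracle → Prop} (h0 : ∀ n, Lg n (fun _ => false))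
    (step : ∀ (i : ℕ) (A : Oracle) (ℓ : ℕ), (∀ n, Lg n A) →
      (∀ x : List Bool, ℓ < x.length → A x = false) → ∃ (A' : Oracle) (ℓ' : ℕ), ℓ < ℓ' ∧
        (∀ x : List Bool, x.length ≤ ℓ → A' x = A x) ∧ (∀ n, Lg n A') ∧
        (∀ x : List Bool, ℓ' < x.length → A' x = false) ∧
        ∀ A'' : Oracle, (∀ x : List Bool, x.length ≤ ℓ' → A'' x = A' x) → Req i A'') :
    ∃ A : Oracle, (∀ n, Lg n A) ∧ ∀ i, Req i A := by
  classical
  let St : Type := {s : Oracle × ℕ // (∀ n, Lg n s.1) ∧
    ∀ x : List Bool, s.2 < x.length → s.1 x = false}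
  have hstep : ∀ (i : ℕ) (s : St), ∃ s' : St, s.1.2 < s'.1.2 ∧
      (∀ x : List Bool, x.length ≤ s.1.2 → s'.1.1 x = s.1.1 x) ∧
      ∀ A'' : Oracle, (∀ x : List Bool, x.length ≤ s'.1.2 → A'' x = s'.1.1 x) → Req i A'' := by
    intro i s
    obtain ⟨A', ℓ', h1, h2, h3, h4, h5⟩ := step i s.1.1 s.1.2 s.2.1 s.2.2
    exact ⟨⟨(A', ℓ'), h3, h4⟩, h1, h2, h5⟩
  choose nx hnx1 hnx2 hnx3 using hstep
  let s : ℕ → St := fun i => Nat.rec ⟨(fun _ => false, 0), h0, fun _ _ => rfl⟩
    (fun i s => nx i s) i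
  have hs : ∀ i, s (i + 1) = nx i (s i) := fun i => rfl
  have hl : ∀ i, i ≤ (s i).1.2 := by
    intro i
    induction i with
    | zero => exact Nat.zero_le _
    | succ i ih =>
      have := hnx1 i (s i)
      rw [hs]
      omega
  have hmono : ∀ i j, i ≤ j → (s i).1.2 ≤ (s j).1.2 := by
    intro i j hij
    induction j, hij using Nat.le_induction with
    | base => exact le_rfl
    | succ j hj ih =>
      have := hnx1 j (s j)
      rw [hs]
      omega
  have hag : ∀ i j, i ≤ j → ∀ x : List Bool, x.length ≤ (s i).1.2 →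
      (s j).1.1 x = (s i).1.1 x := by
    intro i j hij x hx
    induction j, hij using Nat.le_induction with
    | base => rfl
    | succ j hj ih =>
      rw [hs, hnx2 j (s j) x (hx.trans (hmono i j hj)), ih]
  refine ⟨fun x => (s x.length).1.1 x, ?_⟩
  have key : ∀ i (x : List Bool), x.length ≤ (s i).1.2 → (s x.length).1.1 x = (s i).1.1 x := by
    intro i x hx
    rcases le_total x.length i with h | h
    · exact (hag _ _ h x (hl _)).symm
    · exact hag _ _ h x hx
  constructor
  · intro n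
    refine hLg n (s (2 * n)).1.1 _ (fun x hx => ?_) ((s (2 * n)).2.1 n)
    exact (key (2 * n) x (hx.trans (hl _))).symm
  · intro i
    refine hnx3 i (s i) _ fun x hx => ?_
    exact key (i + 1) x hx

end Pool.Agent.J6H49.AM
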