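import Pool.Agent.J6H49.AM.Fool
import Pool.Agent.J6H49.AM.Limit
import Pool.Agent.J6H49.OP.Time

/-!
# A nearly collapsed oracle with `AM` not contained in `Σ₂` and not contained in `MA`
-/

set_option autoImplicit false

namespace Pool.Agent.J6H49.AM

open Filter Pool.Agent.NPC Pool.Agent.H628R3.RO Pool.Agent.J6H54.RO Pool.Agent.J6H49.OP
open Pool.Agent.TH678.GC (join)
open Pool.Agent.TH678.RS (bt)
open Pool.Agent.Y626.WX (Cp cod exists_cp)
open Pool.Agent.J6H49.PHC (oracle)

/-- the language -/
def LL (A : Oracle) : Set (List Bool) := {x | Full x.length A}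

theorem full_congr {n : ℕ} {A A' : Oracle}
    (h : ∀ x : List Bool, x.length = 2 * n → A x = A' x) : Full n A ↔ Full n A' := by
  unfold Full
  refine forall_congr' fun ρ => exists_congr fun y => ?_
  rw [h _ (length_str2 ρ y)]

theorem few_congr {n : ℕ} {A A' : Oracle}
    (h : ∀ x : List Bool, x.length = 2 * n → A x = A' x) : Few n A ↔ Few n A' := by
  unfold Few
  have e : ∀ ρ : Blk n, (∃ y : Blk n, A (str2 ρ y) = true) ↔ ∃ y : Blk n, A' (str2 ρ y) = true :=
    fun ρ => exists_congr fun y => by rw [h _ (length_str2 ρ y)]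
  simp only [e]

theorem lg_congr {n : ℕ} {A A' : Oracle}
    (h : ∀ x : List Bool, x.length = 2 * n → A x = A' x) : Lg n A ↔ Lg n A' :=
  or_congr (full_congr h) (few_congr h)

theorem lg_empty (n : ℕ) : Lg n (fun _ => false) := by
  classical
  right
  unfold Few
  simp

/-- the property that `M` works for `L` at the input `x`, as a `Σ₂` machine -/
def SigOK (B : Oracle) (L : Set (List Bool)) (M : Alg) (p : Polynomial ℕ) (x : List Bool) :
    Prop :=
  x ∈ L ↔ ∃ u : List Bool, u.length ≤ p.eval x.length ∧
    ∀ w : List Bool, w.length ≤ p.eval x.length →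
      M.out B (pairBits x (pairBits u w)) = some [true]

/-- the property that `M` works for `L` at the input `x`, as an `MA` machine -/
def MaOK (B : Oracle) (L : Set (List Bool)) (M : Alg) (p : Polynomial ℕ) (x : List Bool) :
    Prop :=
  (x ∈ L → ∃ y : List Bool, y.length ≤ p.eval x.length ∧
    2 / 3 ≤ pr (p.eval x.length) fun r => M.out B (pairBits x (pairBits y r)) = some [true]) ∧
  (x ∉ L → ∀ y : List Bool, y.length ≤ p.eval x.length →
    (pr (p.eval x.length) fun r => M.out B (pairBits x (pairBits y r)) = some [true]) ≤ 1 / 3)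

/-- the requirements -/
def Req (Φ : Oracle → Oracle) (E₀ : Oracle) (q : Bool × Alg × Polynomial ℕ) (A : Oracle) : Prop :=
  ∃ x, ¬ (if q.1 = true then SigOK (oracle Φ E₀ A) (LL A) q.2.1 q.2.2 x else
    MaOK (oracle Φ E₀ A) (LL A) q.2.1 q.2.2 x)

variable {α : ℕ → ℕ} {g : ℕ → Pool.Agent.H620R2.Gauge.SAlg × Polynomial ℕ}
  {S : ℕ → Polynomial ℕ} {Φ : Oracle → Oracle}

theorem step (hα : Monotone α) (hα' : Tendsto α atTop atTop) (hc : Cp g S (bt α) Φ)
    (E₀ : Oracle) (q : Bool × Alg × Polynomial ℕ) (A : Oracle) (ℓ : ℕ) (hA : ∀ n, Lg n A)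
    (hA0 : ∀ x : List Bool, ℓ < x.length → A x = false) :
    ∃ (A' : Oracle) (ℓ' : ℕ), ℓ < ℓ' ∧
        (∀ x : List Bool, x.length ≤ ℓ → A' x = A x) ∧ (∀ n, Lg n A') ∧
        (∀ x : List Bool, ℓ' < x.length → A' x = false) ∧
        ∀ A'' : Oracle, (∀ x : List Bool, x.length ≤ ℓ' → A'' x = A' x) → Req Φ E₀ q A'' := by
  obtain ⟨b, M, p⟩ := q
  obtain ⟨n, hfine, hn⟩ := ((ev_fine hα hα' M p).and (eventually_gt_atTop ℓ)).exists
  set x := List.replicate n true with hx
  have hxl : x.length = n := by simp [hx]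
  -- the general part
  have hgen : ∀ f : Blk n → Option (Blk n), Lg n (win n f A) →
      (∀ A'' : Oracle, (∀ x : List Bool, x.length ≤ 2 * n + (qb M).eval (inpL p n) →
        A'' x = win n f A x) → ¬ (if b = true then SigOK (oracle Φ E₀ A'') (LL A'') M p x else
          MaOK (oracle Φ E₀ A'') (LL A'') M p x)) →
      ∃ (A' : Oracle) (ℓ' : ℕ), ℓ < ℓ' ∧
        (∀ x : List Bool, x.length ≤ ℓ → A' x = A x) ∧ (∀ n, Lg n A') ∧
        (∀ x : List Bool, ℓ' < x.length → A' x = false) ∧
        ∀ A'' : Oracle, (∀ x : List Bool, x.length ≤ ℓ' → A'' x = A' x) →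
          Req Φ E₀ (b, M, p) A'' := by
    intro f hf h
    refine ⟨win n f A, 2 * n + (qb M).eval (inpL p n), by omega, fun y hy => ?_, fun n' => ?_,
      fun y hy => ?_, fun A'' hA'' => ⟨x, h A'' hA''⟩⟩
    · exact win_off f A (by omega)
    · by_cases h' : n' = n
      · rw [h']
        exact hf
      · exact (lg_congr fun y hy => (win_off f A (by omega)).symm).1 (hA n')
    · rw [win_off f A (by omega)]
      exact hA0 y (by omega)
  have hfull : ∀ (f : Blk n → Option (Blk n)) (A'' : Oracle),
      (∀ x : List Bool, x.length ≤ 2 * n + (qb M).eval (inpL p n) → A'' x = win n f A x) →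
      (x ∈ LL A'' ↔ Full n (win n f A)) := by
    intro f A'' h
    unfold LL
    rw [Set.mem_ofPred_eq, hxl]
    exact full_congr fun y hy => h y (by omega)
  have hout : ∀ (f : Blk n → Option (Blk n)) (A'' : Oracle),
      (∀ x : List Bool, x.length ≤ 2 * n + (qb M).eval (inpL p n) → A'' x = win n f A x) →
      ∀ z : List Bool, z.length ≤ inpL p n →
        M.out (oracle Φ E₀ A'') z = M.out (oracle Φ E₀ (win n f A)) z := by
    intro f A'' h z hz
    refine out_loc hc M (ℓ := 2 * n + (qb M).eval (inpL p n)) (fun _ _ => rfl) h ?_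
    have := eval_mono (qb M) hz
    omega
  cases b with
  | true =>
    obtain ⟨f, hf1, hf2⟩ := fool_sigma hc E₀ A hfine
    refine hgen f hf1 fun A'' hA'' h => hf2 ?_
    rw [if_pos rfl] at h
    unfold SigOK at h
    rw [hfull f A'' hA'', hxl] at h
    rw [h]
    refine exists_congr fun u => and_congr_right fun hu => forall_congr' fun w =>
      forall_congr' fun hw => ?_
    rw [hout f A'' hA'' _ (length_inp hu hw)]
  | false =>
    obtain ⟨f, hf1, hf2⟩ := fool_ma hc E₀ A hfine
    refine hgen f hf1 fun A'' hA'' h => hf2 ?_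
    rw [if_neg (by simp)] at h
    unfold MaOK at h
    rw [hfull f A'' hA'', hxl] at h
    have hpr : ∀ y : List Bool, y.length ≤ p.eval n →
        (pr (p.eval n) fun r => M.out (oracle Φ E₀ A'') (pairBits x (pairBits y r)) =
          some [true]) = pr (p.eval n) fun r =>
            M.out (oracle Φ E₀ (win n f A)) (pairBits x (pairBits y r)) = some [true] := by
      intro y hy
      refine pr_congr fun v => ?_
      rw [hout f A'' hA'' _ (length_inp hy (by rw [List.length_ofFn]))]
    refine ⟨fun h1 => ?_, fun h1 y hy => ?_⟩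
    · obtain ⟨y, hy, h2⟩ := h.1 h1
      exact ⟨y, hy, by rw [← hpr y hy]; exact h2⟩
    · rw [← hpr y hy]
      exact h.2 h1 y hy

/-- the verifier -/
def ver (A : Oracle) (z : List Bool) : List Bool :=
  if (unpair (unpair z).2).2.length = (unpair z).1.length ∧
    (unpair (unpair z).2).1.length = (unpair z).1.length then
    [A ((unpair (unpair z).2).1 ++ (unpair (unpair z).2).2)] else []

theorem isFP_ver (E₀ A : Oracle) : IsFP (oracle Φ E₀ A) (ver A) := by
  have h1 : Poly (fun z : List Bool => (unpair z).1) := Poly.fst poly_unpair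
  have h2 : Poly (fun z : List Bool => (unpair z).2) := Poly.snd poly_unpair
  have h3 : Poly (fun z : List Bool => (unpair (unpair z).2).1) :=
    Poly.fst (poly_unpair.comp h2)
  have h4 : Poly (fun z : List Bool => (unpair (unpair z).2).2) :=
    Poly.snd (poly_unpair.comp h2)
  have h := IsFP.tt (A := oracle Φ E₀ A)
    (Q := fun z => [[false, false] ++ ((unpair (unpair z).2).1 ++ (unpair (unpair z).2).2)])
    (H := fun q => if (unpair (unpair q.1).2).2.length = (unpair q.1).1.length ∧
      (unpair (unpair q.1).2).1.length = (unpair q.1).1.length then q.2 else [])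
    (Poly.cons (Poly.append (NPC.Poly.const [false, false]) (Poly.append h3 h4))
      (NPC.Poly.const [])) (by
      have hf : Poly (fun q : List Bool × List Bool => q.1) := Poly.fst Poly.id
      refine Poly.ite (p := fun q : List Bool × List Bool =>
        (unpair (unpair q.1).2).2.length = (unpair q.1).1.length ∧
          (unpair (unpair q.1).2).1.length = (unpair q.1).1.length) ?_ (Poly.snd Poly.id)
        (NPC.Poly.const [])
      have h5 := Poly.and
        (NPC.Poly.decide_eq (Poly.length (h4.comp hf)) (Poly.length (h1.comp hf)))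
        (NPC.Poly.decide_eq (Poly.length (h3.comp hf)) (Poly.length (h1.comp hf)))
      exact h5.congr fun q => by simp [Bool.decide_and])
  exact h

theorem isAM_LL (E₀ : Oracle) {A : Oracle} (hA : ∀ n, Lg n A) :
    IsAM (oracle Φ E₀ A) (LL A) := by
  classical
  refine ⟨ver A, Polynomial.X, isFP_ver E₀ A, fun x => ?_⟩
  rw [Polynomial.eval_X]
  have key : (pr x.length fun r => ∃ y : List Bool, y.length ≤ x.length ∧
      ver A (pairBits x (pairBits r y)) = [true]) =
      ((Finset.univ.filter fun ρ : Blk x.length =>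
        ∃ y : Blk x.length, A (str2 ρ y) = true).card : ℝ) / 2 ^ x.length := by
    refine pr_eq x.length _ _ fun v => ?_
    unfold ver
    simp only [unpair_pairBits, List.length_ofFn, and_true]
    constructor
    · rintro ⟨y, hy⟩
      refine ⟨List.ofFn y, by rw [List.length_ofFn], ?_⟩
      rw [if_pos (List.length_ofFn)]
      exact congrArg (fun b => [b]) hy
    · rintro ⟨y, -, h⟩
      split_ifs at h with h1
      · refine ⟨fun i => y[i.1]'(by omega), ?_⟩
        have h2 : List.ofFn (fun i : Fin x.length => y[i.1]'(by omega)) = y := by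
          apply List.ext_getElem
          · rw [List.length_ofFn, h1]
          · intro i h3 h4
            rw [List.getElem_ofFn]
        unfold str2
        rw [h2]
        simpa using h
  rw [key]
  have hpos : (0 : ℝ) < 2 ^ x.length := by positivity
  constructor
  · intro hx
    have hfull : Full x.length A := hx
    have h1 : (Finset.univ.filter fun ρ : Blk x.length =>
        ∃ y : Blk x.length, A (str2 ρ y) = true) = Finset.univ := by
      ext ρ
      simp only [Finset.mem_filter, Finset.mem_univ, true_and, iff_true]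
      exact hfull ρ
    rw [h1, Finset.card_univ, Fintype.card_fun, Fintype.card_bool, Fintype.card_fin,
      le_div_iff₀ hpos]
    push_cast
    linarith
  · intro hx
    have hfew : Few x.length A := by
      rcases hA x.length with h | h
      · exact absurd h hx
      · exact h
    unfold Few at hfew
    rw [div_le_iff₀ hpos]
    have h2 : (3 : ℝ) * ((Finset.univ.filter fun ρ : Blk x.length =>
        ∃ y : Blk x.length, A (str2 ρ y) = true).card : ℝ) ≤ 2 ^ x.length := by
      exact_mod_cast hfew
    linarith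

instance : Nonempty (Bool × Alg × Polynomial ℕ) :=
  ⟨(true, ⟨fun x => x, polyTime_id, 0⟩, 0)⟩

/-- **The main theorem.** -/
theorem main (α : ℕ → ℕ) (hα : Monotone α) (hα' : Tendsto α atTop atTop) (C : Oracle) :
    ∃ O : Oracle, NearlyCollapsed α O ∧ Contains O C ∧
      ∃ L : Set (List Bool), IsAM O L ∧ ¬ IsSigma2 O L ∧ ¬ IsMA O L := by
  obtain ⟨g, hg⟩ := Pool.Agent.H620R2.Gauge.CC.exists_enum
  obtain ⟨S, Φ, hc⟩ := exists_cp g (bt (slow2 α))
  obtain ⟨a, ha⟩ := exists_surjective_nat (Bool × Alg × Polynomial ℕ)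
  obtain ⟨A, hA1, hA2⟩ := exists_limit (Lg := Lg) (Req := fun i => Req Φ C (a i))
    (fun n A A' h => (lg_congr fun x hx => h x hx.le).1) lg_empty
    (fun i A ℓ h1 h2 => step (slow2_mono hα) (slow2_tendsto hα') hc C (a i) A ℓ h1 h2)
  refine ⟨oracle Φ C A, nearly hg hα hc (join A C), ⟨[false, true], fun x => rfl⟩, LL A,
    isAM_LL C hA1, ?_, ?_⟩
  · rintro ⟨V, p, ⟨M, hM⟩, hx⟩
    obtain ⟨i, hi⟩ := ha (true, M, p)
    have h := hA2 i
    simp only [hi] at h
    obtain ⟨x, h⟩ := h
    rw [if_pos rfl] at h
    apply h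
    unfold SigOK
    rw [hx x]
    simp only [hM, Option.some.injEq]
  · rintro ⟨V, p, ⟨M, hM⟩, hx⟩
    obtain ⟨i, hi⟩ := ha (false, M, p)
    have h := hA2 i
    simp only [hi] at h
    obtain ⟨x, h⟩ := h
    rw [if_neg (by simp)] at h
    apply h
    unfold MaOK
    simp only [hM, Option.some.injEq]
    exact hx x

end Pool.Agent.J6H49.AM
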