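import Pool.Agent.H628R3.RO.Defs

/-!
# Arthur-Merlin classes and the second level of the polynomial hierarchy, relative to an oracle
-/

set_option autoImplicit false

namespace Pool.Agent.J6H49.AM

open Pool.Agent.NPC Pool.Agent.H628R3.RO

open Classical in
/-- The probability that a random bit string `r` of length `m` has the property `E`. -/
noncomputable def pr (m : ℕ) (E : List Bool → Prop) : ℝ :=
  ((Finset.univ.filter fun v : Fin m → Bool => E (List.ofFn v)).card : ℝ) / 2 ^ m

/-- The class `AM` (Arthur-Merlin) relative to the oracle `B`: the verifier `V` works in polynomial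
time with oracle `B`, the random string `r` has length `p |x|`, the answer `y` of Merlin, which may
depend on `r`, has length at most `p |x|`. -/
def IsAM (B : Oracle) (L : Set (List Bool)) : Prop :=
  ∃ (V : List Bool → List Bool) (p : Polynomial ℕ), IsFP B V ∧ ∀ x : List Bool,
    (x ∈ L → 2 / 3 ≤ pr (p.eval x.length) fun r =>
      ∃ y : List Bool, y.length ≤ p.eval x.length ∧
        V (pairBits x (pairBits r y)) = [true]) ∧
    (x ∉ L → (pr (p.eval x.length) fun r =>
      ∃ y : List Bool, y.length ≤ p.eval x.length ∧
        V (pairBits x (pairBits r y)) = [true]) ≤ 1 / 3)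

/-- The class `MA` (Merlin-Arthur) relative to the oracle `B`: the message `y` of Merlin comes
before the random string `r`. -/
def IsMA (B : Oracle) (L : Set (List Bool)) : Prop :=
  ∃ (V : List Bool → List Bool) (p : Polynomial ℕ), IsFP B V ∧ ∀ x : List Bool,
    (x ∈ L → ∃ y : List Bool, y.length ≤ p.eval x.length ∧
      2 / 3 ≤ pr (p.eval x.length) fun r => V (pairBits x (pairBits y r)) = [true]) ∧
    (x ∉ L → ∀ y : List Bool, y.length ≤ p.eval x.length →
      (pr (p.eval x.length) fun r => V (pairBits x (pairBits y r)) = [true]) ≤ 1 / 3)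

/-- The second level `Σ₂` of the polynomial hierarchy relative to the oracle `B`. -/
def IsSigma2 (B : Oracle) (L : Set (List Bool)) : Prop :=
  ∃ (V : List Bool → List Bool) (p : Polynomial ℕ), IsFP B V ∧ ∀ x : List Bool,
    x ∈ L ↔ ∃ u : List Bool, u.length ≤ p.eval x.length ∧
      ∀ w : List Bool, w.length ≤ p.eval x.length → V (pairBits x (pairBits u w)) = [true]

end Pool.Agent.J6H49.AM
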