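import Mathlib

/-!
# Density restoration

A large set of functions has a large subset which is constant on a small set of places, and
outside this set no value is taken with large probability.
-/

set_option autoImplicit false

namespace Pool.Agent.J6H49.AM

open Finset

variable {R Y : Type} [Fintype R] [DecidableEq R] [Fintype Y] [DecidableEq Y]

theorem card_agree {A : Finset (R → Y)} {S : Finset R}
    (h : ∀ f ∈ A, ∀ f' ∈ A, ∀ ρ ∈ S, f ρ = f' ρ) :
    A.card ≤ Fintype.card Y ^ (Fintype.card R - S.card) := by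
  rcases A.eq_empty_or_nonempty with rfl | ⟨f₀, hf₀⟩
  · simp
  have h1 : A ⊆ Fintype.piFinset (fun ρ => if ρ ∈ S then {f₀ ρ} else univ) := by
    intro f hf
    rw [Fintype.mem_piFinset]
    intro ρ
    split_ifs with hρ
    · exact mem_singleton.2 (h f hf f₀ hf₀ ρ hρ)
    · exact mem_univ _
  refine (card_le_card h1).trans ?_
  rw [Fintype.card_piFinset]
  have h2 : ∀ ρ : R, (if ρ ∈ S then ({f₀ ρ} : Finset Y) else univ).card =
      if ρ ∈ S then 1 else Fintype.card Y := by
    intro ρ
    split_ifs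
    · rfl
    · rfl
  simp only [h2]
  rw [prod_ite]
  simp only [prod_const_one, one_mul, prod_const]
  apply le_of_eq
  congr 1
  have h3 : (univ.filter fun ρ : R => ρ ∉ S) = Sᶜ := by
    ext ρ
    simp
  rw [h3, card_compl]

theorem restore (t : ℕ) (ht : 2 * t ≤ Fintype.card Y) (ht1 : 1 ≤ t) :
    ∀ (D : ℕ) (A : Finset (R → Y)) (S₀ : Finset R), A.Nonempty →
      (∀ f ∈ A, ∀ f' ∈ A, ∀ ρ ∈ S₀, f ρ = f' ρ) →
      Fintype.card Y ^ (Fintype.card R - S₀.card) ≤ 2 ^ D * A.card →
      ∃ (A' : Finset (R → Y)) (S : Finset R), A' ⊆ A ∧ A'.Nonempty ∧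
        S.card ≤ S₀.card + D ∧ (∀ f ∈ A', ∀ f' ∈ A', ∀ ρ ∈ S, f ρ = f' ρ) ∧
        ∀ ρ ∉ S, ∀ y, t * (A'.filter fun f => f ρ = y).card ≤ A'.card := by
  intro D
  induction D with
  | zero =>
    intro A S₀ hne hag hD
    refine ⟨A, S₀, subset_rfl, hne, le_rfl, hag, fun ρ hρ y => ?_⟩
    by_contra hcon
    push Not at hcon
    have h1 : (A.filter fun f => f ρ = y).card ≤
        Fintype.card Y ^ (Fintype.card R - (insert ρ S₀).card) := by
      refine card_agree fun f hf f' hf' ρ' hρ' => ?_
      rw [mem_filter] at hf hf'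
      rw [mem_insert] at hρ'
      rcases hρ' with rfl | h
      · rw [hf.2, hf'.2]
      · exact hag f hf.1 f' hf'.1 ρ' h
    rw [card_insert_of_notMem hρ] at h1
    have h2 : S₀.card + 1 ≤ Fintype.card R := by
      rw [← card_insert_of_notMem hρ]
      exact card_le_univ _
    obtain ⟨k, hk⟩ : ∃ k, Fintype.card R - S₀.card = k + 1 := ⟨Fintype.card R - S₀.card - 1, by omega⟩
    have hk' : Fintype.card R - (S₀.card + 1) = k := by omega
    rw [hk'] at h1
    rw [hk, pow_succ, pow_zero, one_mul] at hD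
    have hY : 0 < Fintype.card Y ^ k := Nat.pow_pos (by omega)
    nlinarith
  | succ D ih =>
    intro A S₀ hne hag hD
    by_cases hcon : ∀ ρ ∉ S₀, ∀ y, t * (A.filter fun f => f ρ = y).card ≤ A.card
    · exact ⟨A, S₀, subset_rfl, hne, by omega, hag, hcon⟩
    push Not at hcon
    obtain ⟨ρ, hρ, y, hy⟩ := hcon
    set A₁ := A.filter fun f => f ρ = y with hA₁
    have hne₁ : A₁.Nonempty := by
      rw [nonempty_iff_ne_empty]
      intro h
      rw [h] at hy
      simp at hy
    have hag₁ : ∀ f ∈ A₁, ∀ f' ∈ A₁, ∀ ρ' ∈ insert ρ S₀, f ρ' = f' ρ' := by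
      intro f hf f' hf' ρ' hρ'
      rw [hA₁, mem_filter] at hf hf'
      rw [mem_insert] at hρ'
      rcases hρ' with rfl | h
      · rw [hf.2, hf'.2]
      · exact hag f hf.1 f' hf'.1 ρ' h
    have h2 : S₀.card + 1 ≤ Fintype.card R := by
      rw [← card_insert_of_notMem hρ]
      exact card_le_univ _
    obtain ⟨k, hk⟩ : ∃ k, Fintype.card R - S₀.card = k + 1 := ⟨Fintype.card R - S₀.card - 1, by omega⟩
    have hk' : Fintype.card R - (S₀.card + 1) = k := by omega
    have hD₁ : Fintype.card Y ^ (Fintype.card R - (insert ρ S₀).card) ≤ 2 ^ D * A₁.card := by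
      rw [card_insert_of_notMem hρ, hk']
      rw [hk, pow_succ, pow_succ] at hD
      have h3 : Fintype.card Y ^ k * Fintype.card Y ≤ (2 ^ D * A₁.card) * Fintype.card Y := by
        calc Fintype.card Y ^ k * Fintype.card Y ≤ 2 ^ D * 2 * A.card := hD
          _ ≤ 2 ^ D * 2 * (t * A₁.card) := Nat.mul_le_mul_left _ hy.le
          _ = (2 ^ D * A₁.card) * (2 * t) := by ring
          _ ≤ _ := Nat.mul_le_mul_left _ ht
      exact Nat.le_of_mul_le_mul_right h3 (by omega)
    obtain ⟨A', S, h4, h5, h6, h7, h8⟩ := ih A₁ (insert ρ S₀) hne₁ hag₁ hD₁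
    rw [card_insert_of_notMem hρ] at h6
    exact ⟨A', S, h4.trans (filter_subset _ _), h5, by omega, h7, h8⟩

/-- pigeonhole -/
theorem pigeon {α β : Type} [Fintype α] [Nonempty α] [DecidableEq β] (u : α → β)
    (T : Finset β) (hT : ∀ a, u a ∈ T) : ∃ b, (univ.filter fun a => u a = b).Nonempty ∧
      Fintype.card α ≤ T.card * (univ.filter fun a => u a = b).card := by
  obtain ⟨b, hb, h⟩ : ∃ b ∈ T, Fintype.card α ≤ T.card * (univ.filter fun a => u a = b).card := by
    by_contra hcon
    push Not at hcon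
    have hne : T.Nonempty := ⟨u (Classical.arbitrary α), hT _⟩
    have h1 : Fintype.card α = ∑ b ∈ T, (univ.filter fun a => u a = b).card := by
      rw [← card_univ]
      exact card_eq_sum_card_fiberwise fun a _ => hT a
    have h2 : T.card * Fintype.card α < T.card * Fintype.card α := by
      calc T.card * Fintype.card α = ∑ b ∈ T, T.card * (univ.filter fun a => u a = b).card := by
            rw [h1, mul_sum]
        _ < ∑ _b ∈ T, Fintype.card α := sum_lt_sum_of_nonempty hne hcon
        _ = T.card * Fintype.card α := by rw [sum_const, smul_eq_mul]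
    exact lt_irrefl _ h2
  refine ⟨b, ?_, h⟩
  rw [← card_pos]
  have h3 : 0 < Fintype.card α := Fintype.card_pos
  by_contra hcon
  have h4 : (univ.filter fun a => u a = b).card = 0 := by omega
  rw [h4] at h
  omega

end Pool.Agent.J6H49.AM
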