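import Pool.Agent.J6H49.AM.Defs
import Pool.Agent.J6H49.AM.Restore
import Pool.Agent.J6H49.OP.Late
import Pool.Agent.H628R3.RO.N1

/-!
# One stage: a window which fools a `Σ₂` machine or an `MA` machine
-/

set_option autoImplicit false

namespace Pool.Agent.J6H49.AM

open Filter Pool.Agent.NPC Pool.Agent.H628R3.RO Pool.Agent.J6H54.RO Pool.Agent.J6H49.OP
open Pool.Agent.TH678.RS (bt)
open Pool.Agent.Y626.WX (Cp)
open Pool.Agent.J6H49.PHC (oracle)

/-- bit strings of length `n` -/
abbrev Blk (n : ℕ) : Type := Fin n → Bool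

/-- the string of length `2 * n` with the halves `ρ` and `y` -/
def str2 {n : ℕ} (ρ y : Blk n) : List Bool := List.ofFn ρ ++ List.ofFn y

theorem length_str2 {n : ℕ} (ρ y : Blk n) : (str2 ρ y).length = 2 * n := by
  unfold str2
  rw [List.length_append, List.length_ofFn, List.length_ofFn]
  omega

theorem str2_inj {n : ℕ} {ρ y ρ' y' : Blk n} (h : str2 ρ y = str2 ρ' y') : ρ = ρ' ∧ y = y' := by
  obtain ⟨h1, h2⟩ := List.append_inj h (by simp)
  exact ⟨List.ofFn_injective h1, List.ofFn_injective h2⟩

/-- every first half can be continued to a string of the oracle -/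
def Full (n : ℕ) (A : Oracle) : Prop := ∀ ρ : Blk n, ∃ y : Blk n, A (str2 ρ y) = true

open Classical in
/-- few first halves can be continued to a string of the oracle -/
def Few (n : ℕ) (A : Oracle) : Prop :=
  3 * (Finset.univ.filter fun ρ : Blk n => ∃ y : Blk n, A (str2 ρ y) = true).card ≤ 2 ^ n

/-- the promise -/
def Lg (n : ℕ) (A : Oracle) : Prop := Full n A ∨ Few n A

open Classical in
/-- change the strings of length `2 * n` -/
noncomputable def win (n : ℕ) (f : Blk n → Option (Blk n)) (A : Oracle) : Oracle := fun x =>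
  if x.length = 2 * n then decide (∃ ρ y, x = str2 ρ y ∧ f ρ = some y) else A x

theorem win_str2 {n : ℕ} (f : Blk n → Option (Blk n)) (A : Oracle) (ρ y : Blk n) :
    win n f A (str2 ρ y) = true ↔ f ρ = some y := by
  unfold win
  rw [if_pos (length_str2 ρ y), decide_eq_true_eq]
  constructor
  · rintro ⟨ρ', y', h1, h2⟩
    obtain ⟨rfl, rfl⟩ := str2_inj h1
    exact h2
  · intro h
    exact ⟨ρ, y, rfl, h⟩

theorem win_off {n : ℕ} (f : Blk n → Option (Blk n)) (A : Oracle) {x : List Bool}
    (h : x.length ≠ 2 * n) : win n f A x = A x := by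
  unfold win
  rw [if_neg h]

theorem full_win {n : ℕ} (g : Blk n → Blk n) (A : Oracle) :
    Full n (win n (fun ρ => some (g ρ)) A) := fun ρ => ⟨g ρ, (win_str2 _ A ρ _).2 rfl⟩

theorem few_win {n : ℕ} {f : Blk n → Option (Blk n)} {S : Finset (Blk n)}
    (hf : ∀ ρ ∉ S, f ρ = none) (hS : 3 * S.card ≤ 2 ^ n) (A : Oracle) : Few n (win n f A) := by
  classical
  unfold Few
  refine le_trans (Nat.mul_le_mul_left _ (Finset.card_le_card ?_)) hS
  intro ρ hρ
  rw [Finset.mem_filter] at hρ
  obtain ⟨-, y, hy⟩ := hρ
  rw [win_str2] at hy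
  by_contra hcon
  rw [hf ρ hcon] at hy
  simp at hy

theorem not_full_of_few {n : ℕ} {A : Oracle} (h : Few n A) : ¬ Full n A := by
  classical
  intro hf
  unfold Few at h
  have h1 : (Finset.univ.filter fun ρ : Blk n => ∃ y : Blk n, A (str2 ρ y) = true) =
      Finset.univ := by
    ext ρ
    simp only [Finset.mem_filter, Finset.mem_univ, true_and, iff_true]
    exact hf ρ
  rw [h1, Finset.card_univ, Fintype.card_fun, Fintype.card_bool, Fintype.card_fin] at h
  have : 0 < 2 ^ n := by positivity
  omega

theorem card_strs (m : ℕ) : (strs m).toFinset.card ≤ 2 ^ (m + 1) := by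
  refine (List.toFinset_card_le _).trans ?_
  have h : (strs m).length + 1 = 2 ^ (m + 1) := by
    induction m with
    | zero => rfl
    | succ m ih =>
      rw [strs, List.length_append, length_strsEq]
      have : 2 ^ (m + 1 + 1) = 2 ^ (m + 1) + 2 ^ (m + 1) := by ring
      omega
  omega

theorem pr_eq (m : ℕ) (E : List Bool → Prop) (P : (Fin m → Bool) → Prop) [DecidablePred P]
    (h : ∀ v, P v ↔ E (List.ofFn v)) :
    pr m E = ((Finset.univ.filter P).card : ℝ) / 2 ^ m := by
  unfold pr
  congr 2
  refine congrArg Finset.card (Finset.ext fun v => ?_)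
  simp only [Finset.mem_filter, Finset.mem_univ, true_and, h]

theorem pr_congr {m : ℕ} {E E' : List Bool → Prop}
    (h : ∀ v : Fin m → Bool, E (List.ofFn v) ↔ E' (List.ofFn v)) : pr m E = pr m E' := by
  unfold pr
  refine congrArg (fun k : ℕ => (k : ℝ) / 2 ^ m) (congrArg Finset.card (Finset.ext fun v => ?_))
  simp only [Finset.mem_filter, Finset.mem_univ, true_and, h]

/-- the length of the inputs at stage `n` -/
def inpL (p : Polynomial ℕ) (n : ℕ) : ℕ := 2 * n + 1 + (2 * p.eval n + 1 + p.eval n)

theorem length_inp {p : Polynomial ℕ} {n : ℕ} {u w : List Bool} (hu : u.length ≤ p.eval n)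
    (hw : w.length ≤ p.eval n) :
    (pairBits (List.replicate n true) (pairBits u w)).length ≤ inpL p n := by
  rw [length_pairBits, length_pairBits, List.length_replicate]
  unfold inpL
  omega

/-- the parameters are fine at stage `n` -/
structure FineAt (α : ℕ → ℕ) (M : Alg) (p : Polynomial ℕ) (n : ℕ) : Prop where
  pos : 1 ≤ n
  late : (qb M).eval (inpL p n) ≤ lam α (2 * n - 1)
  few : 2 * (4 * M.p.eval (inpL p n) + 4) ≤ 2 ^ n
  adv : 3 * (p.eval n + 1) ≤ 2 ^ n

theorem ev_fine {α : ℕ → ℕ} (hα : Monotone α) (hα' : Tendsto α atTop atTop) (M : Alg)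
    (p : Polynomial ℕ) : ∀ᶠ n : ℕ in atTop, FineAt α M p n := by
  set I : Polynomial ℕ := 2 * Polynomial.X + 1 + (2 * p + 1 + p) with hI
  have hIe : ∀ n, I.eval n = inpL p n := by
    intro n
    simp only [hI, inpL, Polynomial.eval_add, Polynomial.eval_mul, Polynomial.eval_ofNat,
      Polynomial.eval_X, Polynomial.eval_one]
  set P : Polynomial ℕ := (qb M).comp I + 2 * (4 * M.p.comp I + 4) + 3 * (p + 1) with hP
  have hPe : ∀ n, P.eval n = (qb M).eval (inpL p n) + 2 * (4 * M.p.eval (inpL p n) + 4) +
      3 * (p.eval n + 1) := by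
    intro n
    simp only [hP, Polynomial.eval_add, Polynomial.eval_mul, Polynomial.eval_ofNat,
      Polynomial.eval_comp, Polynomial.eval_one, hIe]
  have h1 : Tendsto (fun n : ℕ => 2 * n - 1) atTop atTop := by
    rw [tendsto_atTop]
    intro b
    filter_upwards [eventually_ge_atTop (b + 1)] with n hn
    omega
  filter_upwards [h1.eventually (le_lam hα hα' P), (le_lam hα hα' P),
    eventually_ge_atTop 1] with n h2 h3 hn
  have h4 : P.eval n ≤ P.eval (2 * n - 1) := eval_mono P (by omega)
  have h5 := lam_le α n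
  have h6 := hPe n
  exact ⟨hn, by omega, by omega, by omega⟩

variable {α : ℕ → ℕ} {g : ℕ → Pool.Agent.H620R2.Gauge.SAlg × Polynomial ℕ}
  {S : ℕ → Polynomial ℕ} {Φ : Oracle → Oracle}

open Classical in
/-- the sparse window made from `f₀` on the set `T` -/
noncomputable def spw {n : ℕ} (T : Finset (Blk n)) (f₀ : Blk n → Blk n) :
    Blk n → Option (Blk n) := fun ρ => if ρ ∈ T then some (f₀ ρ) else none

/-- the outputs for most functions in a restored set are the output for the sparse window -/
theorem most_agree (hc : Cp g S (bt α) Φ) (E₀ A : Oracle) {M : Alg} {p : Polynomial ℕ} {n t : ℕ}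
    (hfine : FineAt α M p n) {F : Finset (Blk n → Blk n)} {T : Finset (Blk n)}
    {f₀ : Blk n → Blk n} (hag : ∀ f ∈ F, ∀ ρ ∈ T, f ρ = f₀ ρ)
    (hr : ∀ ρ ∉ T, ∀ y, t * (F.filter fun f => f ρ = y).card ≤ F.card) {z : List Bool}
    (hz : z.length ≤ inpL p n) :
    t * (F.filter fun f => M.out (oracle Φ E₀ (win n (fun ρ => some (f ρ)) A)) z ≠
      M.out (oracle Φ E₀ (win n (spw T f₀) A)) z).card ≤
        M.p.eval (inpL p n) * F.card := by
  classical
  have hn := hfine.pos
  obtain ⟨Q, hQ1, hQ2⟩ := out_stable hc M (n := 2 * n - 1) (by omega) E₀ (win n (spw T f₀) A)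
    (u := z) ((eval_mono (qb M) hz).trans hfine.late)
  have hQ1' : Q.card ≤ M.p.eval (inpL p n) := hQ1.trans (eval_mono M.p hz)
  -- the exceptional pairs
  have hdec : ∀ q ∈ Q, ∃ (ρ y : Blk n), q.length = 2 * n → q = str2 ρ y := by
    intro q _
    by_cases h : q.length = 2 * n
    · refine ⟨fun i => q[i.1]'(by omega), fun i => q[n + i.1]'(by omega), fun _ => ?_⟩
      apply List.ext_getElem
      · rw [length_str2, h]
      · intro i h1 h2
        unfold str2
        rw [List.getElem_append]
        split_ifs with h3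
        · rw [List.getElem_ofFn]
        · rw [List.getElem_ofFn]
          simp only [List.length_ofFn] at h3 ⊢
          congr 1
          omega
    · exact ⟨fun _ => false, fun _ => false, fun h' => absurd h' h⟩
  choose! ρ' y' hρy using hdec
  have hsub : (F.filter fun f => M.out (oracle Φ E₀ (win n (fun ρ => some (f ρ)) A)) z ≠
      M.out (oracle Φ E₀ (win n (spw T f₀) A)) z) ⊆
      Q.biUnion fun q => if ρ' q ∉ T then F.filter fun f => f (ρ' q) = y' q else ∅ := by
    intro f hf
    rw [Finset.mem_filter] at hf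
    obtain ⟨hfF, hne⟩ := hf
    by_contra hcon
    apply hne
    refine hQ2 _ (fun x hx => ?_) fun x hx => ?_
    · rw [win_off _ _ (by omega), win_off _ _ (by omega)]
    · by_cases hlen : x.length = 2 * n
      · have hxs := hρy x hx hlen
        have hx' : (f (ρ' x) = y' x) → ρ' x ∈ T := by
          intro h1
          by_contra h2
          apply hcon
          rw [Finset.mem_biUnion]
          refine ⟨x, hx, ?_⟩
          rw [if_pos h2]
          exact Finset.mem_filter.2 ⟨hfF, h1⟩
        have h3 : win n (fun ρ => some (f ρ)) A x = true ↔ win n (spw T f₀) A x = true := by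
          rw [hxs, win_str2, win_str2]
          unfold spw
          split_ifs with h4
          · rw [hag f hfF _ h4]
          · simp only [Option.some.injEq, iff_false, reduceCtorEq]
            exact fun h5 => h4 (hx' h5)
        exact Bool.eq_iff_iff.2 h3
      · rw [win_off _ _ hlen, win_off _ _ hlen]
  have h1 : t * (F.filter fun f => M.out (oracle Φ E₀ (win n (fun ρ => some (f ρ)) A)) z ≠
      M.out (oracle Φ E₀ (win n (spw T f₀) A)) z).card ≤
      t * ∑ q ∈ Q, (if ρ' q ∉ T then F.filter fun f => f (ρ' q) = y' q else ∅).card :=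
    Nat.mul_le_mul_left _ ((Finset.card_le_card hsub).trans Finset.card_biUnion_le)
  refine h1.trans ?_
  rw [Finset.mul_sum]
  calc ∑ q ∈ Q, t * (if ρ' q ∉ T then F.filter fun f => f (ρ' q) = y' q else ∅).card
      ≤ ∑ _q ∈ Q, F.card := by
        refine Finset.sum_le_sum fun q hq => ?_
        by_cases h : ρ' q ∈ T
        · rw [if_neg (not_not.2 h)]
          simp
        · rw [if_pos h]
          exact hr _ h _
    _ = Q.card * F.card := by rw [Finset.sum_const, smul_eq_mul]
    _ ≤ _ := Nat.mul_le_mul_right _ hQ1'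

/-- the common part: a restored set of functions with the same message -/
theorem common {M : Alg} {p : Polynomial ℕ} {n : ℕ} (hfine : FineAt α M p n)
    (Pr : (Blk n → Blk n) → List Bool → Prop)
    (h : ∀ f, ∃ u : List Bool, u.length ≤ p.eval n ∧ Pr f u) :
    ∃ (u : List Bool) (F : Finset (Blk n → Blk n)) (T : Finset (Blk n)) (f₀ : Blk n → Blk n),
      u.length ≤ p.eval n ∧ F.Nonempty ∧ (∀ f ∈ F, Pr f u) ∧ 3 * T.card ≤ 2 ^ n ∧
      (∀ f ∈ F, ∀ ρ ∈ T, f ρ = f₀ ρ) ∧
      ∀ ρ ∉ T, ∀ y, (4 * M.p.eval (inpL p n) + 4) * (F.filter fun f => f ρ = y).card ≤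
        F.card := by
  classical
  choose u hu1 hu2 using h
  obtain ⟨b, hb1, hb2⟩ := pigeon u (strs (p.eval n)).toFinset (fun f => by
    rw [List.mem_toFinset, mem_strs]
    exact hu1 f)
  set F₀ := Finset.univ.filter fun f => u f = b with hF₀
  have hcard : Fintype.card (Blk n) = 2 ^ n := by
    rw [Fintype.card_fun, Fintype.card_bool, Fintype.card_fin]
  obtain ⟨F, T, h1, h2, h3, h4, h5⟩ := restore (R := Blk n) (Y := Blk n)
    (4 * M.p.eval (inpL p n) + 4) (by rw [hcard]; exact hfine.few) (by omega)
    (p.eval n + 1) F₀ ∅ hb1 (by simp) (by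
      rw [Finset.card_empty, Nat.sub_zero]
      rw [Fintype.card_fun] at hb2
      exact hb2.trans (Nat.mul_le_mul_right _ (card_strs _)))
  obtain ⟨f₀, hf₀⟩ := h2
  have hu : u f₀ = b := (Finset.mem_filter.1 (h1 hf₀)).2
  refine ⟨b, F, T, f₀, ?_, ⟨f₀, hf₀⟩, fun f hf => ?_, ?_, fun f hf ρ hρ => h4 f hf f₀ hf₀ ρ hρ,
    h5⟩
  · rw [← hu]
    exact hu1 f₀
  · have h6 : u f = b := (Finset.mem_filter.1 (h1 hf)).2
    rw [← h6]
    exact hu2 f
  · rw [Finset.card_empty, zero_add] at h3
    have := hfine.adv
    omega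

/-- A window which fools a `Σ₂` machine. -/
theorem fool_sigma (hc : Cp g S (bt α) Φ) (E₀ A : Oracle) {M : Alg} {p : Polynomial ℕ} {n : ℕ}
    (hfine : FineAt α M p n) : ∃ f : Blk n → Option (Blk n), Lg n (win n f A) ∧
      ¬ (Full n (win n f A) ↔ ∃ u : List Bool, u.length ≤ p.eval n ∧
        ∀ w : List Bool, w.length ≤ p.eval n → M.out (oracle Φ E₀ (win n f A))
          (pairBits (List.replicate n true) (pairBits u w)) = some [true]) := by
  classical
  by_contra hcon
  push Not at hcon
  obtain ⟨u, F, T, f₀, hu, hF, hPr, hT, hag, hr⟩ := common hfine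
    (fun f u => ∀ w : List Bool, w.length ≤ p.eval n →
      M.out (oracle Φ E₀ (win n (fun ρ => some (f ρ)) A))
        (pairBits (List.replicate n true) (pairBits u w)) = some [true])
    (fun f => (hcon _ (Or.inl (full_win f A))).1 (full_win f A))
  have hfew : Few n (win n (spw T f₀) A) := few_win (S := T) (fun ρ hρ => by
    unfold spw
    rw [if_neg hρ]) hT A
  refine not_full_of_few hfew ((hcon _ (Or.inr hfew)).2 ⟨u, hu, fun w hw => ?_⟩)
  have h1 := most_agree hc E₀ A hfine hag hr (z := pairBits (List.replicate n true)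
    (pairBits u w)) (length_inp hu hw)
  obtain ⟨f, hfF, hf⟩ : ∃ f ∈ F, M.out (oracle Φ E₀ (win n (fun ρ => some (f ρ)) A))
      (pairBits (List.replicate n true) (pairBits u w)) =
      M.out (oracle Φ E₀ (win n (spw T f₀) A))
        (pairBits (List.replicate n true) (pairBits u w)) := by
    by_contra h2
    push Not at h2
    rw [Finset.filter_true_of_mem h2] at h1
    have h3 : 0 < F.card := Finset.card_pos.2 hF
    nlinarith
  rw [← hf]
  exact hPr f hfF w hw

/-- A window which fools an `MA` machine. -/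
theorem fool_ma (hc : Cp g S (bt α) Φ) (E₀ A : Oracle) {M : Alg} {p : Polynomial ℕ} {n : ℕ}
    (hfine : FineAt α M p n) : ∃ f : Blk n → Option (Blk n), Lg n (win n f A) ∧
      ¬ ((Full n (win n f A) → ∃ y : List Bool, y.length ≤ p.eval n ∧
          2 / 3 ≤ pr (p.eval n) fun r => M.out (oracle Φ E₀ (win n f A))
            (pairBits (List.replicate n true) (pairBits y r)) = some [true]) ∧
        (¬ Full n (win n f A) → ∀ y : List Bool, y.length ≤ p.eval n →
          (pr (p.eval n) fun r => M.out (oracle Φ E₀ (win n f A))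
            (pairBits (List.replicate n true) (pairBits y r)) = some [true]) ≤ 1 / 3)) := by
  classical
  by_contra hcon
  push Not at hcon
  obtain ⟨u, F, T, f₀, hu, hF, hPr, hT, hag, hr⟩ := common hfine
    (fun f u => 2 / 3 ≤ pr (p.eval n) fun r =>
      M.out (oracle Φ E₀ (win n (fun ρ => some (f ρ)) A))
        (pairBits (List.replicate n true) (pairBits u r)) = some [true])
    (fun f => (hcon _ (Or.inl (full_win f A))).1 (full_win f A))
  have hfew : Few n (win n (spw T f₀) A) := few_win (S := T) (fun ρ hρ => by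
    unfold spw
    rw [if_neg hρ]) hT A
  have h1 := (hcon _ (Or.inr hfew)).2 (not_full_of_few hfew) u hu
  set m := p.eval n with hm
  set inp : Blk m → List Bool := fun v => pairBits (List.replicate n true)
    (pairBits u (List.ofFn v)) with hinp
  set acc : (Blk n → Blk n) → Blk m → Prop := fun f v =>
    M.out (oracle Φ E₀ (win n (fun ρ => some (f ρ)) A)) (inp v) = some [true] with hacc
  set accB : Blk m → Prop := fun v =>
    M.out (oracle Φ E₀ (win n (spw T f₀) A)) (inp v) = some [true] with haccB
  have hpos : (0 : ℝ) < 2 ^ m := by positivity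
  have hFpos : (0 : ℝ) < F.card := by
    have := Finset.card_pos.2 hF
    exact_mod_cast this
  have h2 : ∀ f ∈ F, (2 / 3 : ℝ) * 2 ^ m ≤ ((Finset.univ.filter fun v => acc f v).card : ℝ) := by
    intro f hf
    have := hPr f hf
    rw [pr_eq m _ (acc f) (fun v => Iff.rfl), le_div_iff₀ hpos] at this
    exact this
  have h3 : ((Finset.univ.filter fun v => accB v).card : ℝ) ≤ 1 / 3 * 2 ^ m := by
    rw [pr_eq m _ accB (fun v => Iff.rfl), div_le_iff₀ hpos] at h1
    exact h1
  -- double counting
  have h4 : ∑ f ∈ F, ((Finset.univ.filter fun v => acc f v).card : ℝ) ≤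
      ∑ v : Blk m, ((F.filter fun f => acc f v).card : ℝ) := by
    have e : ∑ f ∈ F, (Finset.univ.filter fun v => acc f v).card =
        ∑ v : Blk m, (F.filter fun f => acc f v).card := by
      simp only [Finset.card_filter]
      exact Finset.sum_comm
    exact_mod_cast e.le
  have h5 : ∀ v : Blk m, ((F.filter fun f => acc f v).card : ℝ) ≤
      (if accB v then (F.card : ℝ) else 0) + F.card / 4 := by
    intro v
    have hz : (inp v).length ≤ inpL p n := length_inp hu (by rw [List.length_ofFn])
    have h6 := most_agree hc E₀ A hfine hag hr hz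
    set K := F.filter fun f => M.out (oracle Φ E₀ (win n (fun ρ => some (f ρ)) A)) (inp v) ≠
      M.out (oracle Φ E₀ (win n (spw T f₀) A)) (inp v) with hK
    have h7 : 4 * K.card ≤ F.card := by
      by_contra h8
      push Not at h8
      have h9 : (M.p.eval (inpL p n) + 1) * F.card < (4 * M.p.eval (inpL p n) + 4) * K.card := by
        have : (4 * M.p.eval (inpL p n) + 4) * K.card =
            (M.p.eval (inpL p n) + 1) * (4 * K.card) := by ring
        rw [this]
        exact Nat.mul_lt_mul_of_pos_left h8 (by omega)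
      nlinarith
    have h7' : (K.card : ℝ) ≤ F.card / 4 := by
      have : (4 : ℝ) * K.card ≤ F.card := by exact_mod_cast h7
      linarith
    split_ifs with hB
    · have : ((F.filter fun f => acc f v).card : ℝ) ≤ F.card := by
        exact_mod_cast Finset.card_filter_le _ _
      linarith
    · have h8 : (F.filter fun f => acc f v) ⊆ K := by
        intro f hf
        rw [Finset.mem_filter] at hf
        rw [hK, Finset.mem_filter]
        refine ⟨hf.1, fun he => hB ?_⟩
        show M.out (oracle Φ E₀ (win n (spw T f₀) A)) (inp v) = some [true]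
        rw [← he]
        exact hf.2
      have h9 : ((F.filter fun f => acc f v).card : ℝ) ≤ K.card := by
        exact_mod_cast Finset.card_le_card h8
      linarith
  have h6 : ∑ v : Blk m, ((if accB v then (F.card : ℝ) else 0) + F.card / 4) =
      F.card * ((Finset.univ.filter fun v => accB v).card : ℝ) + 2 ^ m * (F.card / 4) := by
    rw [Finset.sum_add_distrib, Finset.sum_const, ← Finset.sum_filter, Finset.sum_const,
      Finset.card_univ, Fintype.card_fun, Fintype.card_bool, Fintype.card_fin]
    simp only [nsmul_eq_mul]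
    push_cast
    ring
  have h7 : ∑ f ∈ F, ((2 / 3 : ℝ) * 2 ^ m) ≤
      F.card * ((Finset.univ.filter fun v => accB v).card : ℝ) + 2 ^ m * (F.card / 4) := by
    rw [← h6]
    exact (Finset.sum_le_sum h2).trans (h4.trans (Finset.sum_le_sum fun v _ => h5 v))
  rw [Finset.sum_const, nsmul_eq_mul] at h7
  have h8 : (F.card : ℝ) * ((Finset.univ.filter fun v => accB v).card : ℝ) ≤
      F.card * (1 / 3 * 2 ^ m) := mul_le_mul_of_nonneg_left h3 hFpos.le
  have h9 : 0 < (F.card : ℝ) * 2 ^ m := mul_pos hFpos hpos
  nlinarith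

end Pool.Agent.J6H49.AM
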